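import Mathlib
import Pool.Agent.Q210.IV.Main

/-!
The definitions are in `Pool.Agent.Q210.IU.Fml` (`D0`, `S1`, `Sat`, `cons`: formulas of the Levy
hierarchy and their truth in the universe of all sets), `Pool.Agent.Q210.IU.Meas`
(`IsMeasurable`), `Pool.Agent.Q210.IV.Main` (`LimMeas`: limits of measurable cardinals) and
`Pool.Agent.Q210.IV.Cont` (`InH`: membership in `H(κ)`).
-/

open Cardinal Ordinal ZFSet

universe u

namespace Pool.Agent.Results.MP_1748a2_lc.NoLongWellOrder

open Q210.IU Q210.IV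

/-- `R` is a well-ordering of the set `D`, in the strict or in the non-strict sense: `R` relates
only members of `D`, and the strict part `x ≠ y ∧ R x y` is a strict well-ordering of `D`. -/
def WellOrders (R : ZFSet.{u} → ZFSet.{u} → Prop) (D : ZFSet.{u}) : Prop :=
  (∀ x y, R x y → x ∈ D ∧ y ∈ D) ∧ IsWellOrder D (fun a b => R a.1 b.1 ∧ a.1 ≠ b.1)

/-- The class `{(x, y) : R x y}` of ordered pairs is defined by the formula `φ` with the
parameters `q` and `p`. -/
def DefinedBy (R : ZFSet.{u} → ZFSet.{u} → Prop) (φ : S1) (q p : ZFSet.{u}) : Prop :=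
  ∀ z, (∃ x y, z = pair x y ∧ R x y) ↔ φ.Sat (cons z (cons q (fun _ => p)))

/-- Let `κ` be a limit of measurable cardinals, of any cofinality, and let `p` be an element of
`H(κ)`. Then no well-ordering of a subset of `P(κ)` of cardinality greater than `κ` is definable
by a `Σ_1`-formula with parameters `κ` and `p`. -/
theorem result (κ : Cardinal.{u}) (hκ : LimMeas κ) (p : ZFSet.{u}) (hp : InH κ p) (φ : S1)
    (D : ZFSet.{u}) (hD : D ⊆ powerset κ.ord.toZFSet) (hc : κ < D.card)
    (R : ZFSet.{u} → ZFSet.{u} → Prop) (hR : WellOrders R D) :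
    ¬ DefinedBy R φ κ.ord.toZFSet p := by
  intro hφ
  obtain ⟨hR, hwo⟩ := hR
  refine no_long_wo_lim hκ D (fun x hx => mem_powerset.1 (hD hx)) hc R hR ?_ ?_ p
    hp.rank_lt φ ?_
  · intro x hx y hy hxy
    rcases @trichotomous_of D (fun a b => R a.1 b.1 ∧ a.1 ≠ b.1) _ ⟨x, hx⟩ ⟨y, hy⟩ with
      h | h | h
    · exact Or.inl h.1
    · exact absurd (Subtype.ext_iff.1 h) hxy
    · exact Or.inr h.1
  · intro f hf
    have hfD : ∀ i, f i ∈ D := fun i => (hR _ _ (hf i).1).2
    exact (wellFounded_iff_isEmpty_descending_chain.1 hwo.wf).false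
      ⟨fun i => (⟨f i, hfD i⟩ : D), hf⟩
  · intro x y
    rw [← hφ]
    constructor
    · intro h
      exact ⟨x, y, rfl, h⟩
    · rintro ⟨x', y', h1, h2⟩
      obtain ⟨rfl, rfl⟩ := pair_injective h1
      exact h2

end Pool.Agent.Results.MP_1748a2_lc.NoLongWellOrder
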